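import Mathlib
import Pool.Agent.H729Z.Cond.Defs
import Pool.Agent.H729Z.Cond.Main

set_option autoImplicit false

namespace Pool.Agent.Results.MP_f5330b_al.AQ2NotGeometric

open Pool.Agent.H729Z.Cond

/-- There are finitely generated quasi-isometric groups `G` and `H` such that `G` is condensed
and `H` is not. -/
theorem result : ∃ (G H : Type) (_ : Group G) (_ : Group H),
    Group.FG G ∧ Group.FG H ∧ QuasiIsometric G H ∧ Condensed G ∧ ¬ Condensed H :=
  ⟨G0 ⧸ K X0, G0 ⧸ K X1, inferInstance, inferInstance, fg_quot X0, fg_quot X1, qi_GH, condensed_G,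
    not_condensed_H⟩

end Pool.Agent.Results.MP_f5330b_al.AQ2NotGeometric
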